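import Mathlib
import Pool.Agent.W236.TZ.Defs

/-!
# Sums over the words of maximal chains (part WORDS)
-/

set_option autoImplicit false

open scoped Classical
open Finset

namespace Pool.Agent.W948.TZ

open Pool.Agent.W236.TZ

variable {n k : ℕ}

/-- size -/
def sz (μ : Fin (k + 1) → ℕ) : ℕ := ∑ i, μ i

lemma sz_up (μ : Fin (k + 1) → ℕ) (i : Fin (k + 1)) : sz (up μ i) = sz μ + 1 := by
  unfold sz up
  rw [Finset.sum_update_of_mem (Finset.mem_univ i),
    ← Finset.add_sum_erase Finset.univ μ (Finset.mem_univ i), Finset.erase_eq]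
  omega

lemma sz_dn (μ : Fin (k + 1) → ℕ) (i : Fin (k + 1)) (h : 0 < μ i) : sz (dn μ i) + 1 = sz μ := by
  unfold sz dn
  rw [Finset.sum_update_of_mem (Finset.mem_univ i),
    ← Finset.add_sum_erase Finset.univ μ (Finset.mem_univ i), Finset.erase_eq]
  omega

lemma dn_up (μ : Fin (k + 1) → ℕ) (i : Fin (k + 1)) : dn (up μ i) i = μ := by
  unfold dn up
  simp

lemma up_dn (μ : Fin (k + 1) → ℕ) (i : Fin (k + 1)) (h : 0 < μ i) : up (dn μ i) i = μ := by
  unfold dn up
  have : μ i - 1 + 1 = μ i := by omega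
  simp [this]

lemma up_apply_self (μ : Fin (k + 1) → ℕ) (i : Fin (k + 1)) : up μ i i = μ i + 1 := by
  unfold up
  simp

lemma mem_LL {μ : Fin (k + 1) → ℕ} : μ ∈ LL n k ↔ Vd n k μ := by
  unfold LL
  rw [Finset.mem_filter, Fintype.mem_piFinset]
  constructor
  · exact fun h => h.2
  · intro h
    refine ⟨fun i => ?_, h⟩
    have := h.1 i
    rw [Finset.mem_range]
    omega

lemma le_lam {μ : Fin (k + 1) → ℕ} (h : Vd n k μ) : μ ≤ lam n k := fun i => h.1 i

lemma sz_le {μ : Fin (k + 1) → ℕ} (h : Vd n k μ) : sz μ ≤ sz (lam n k) :=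
  Finset.sum_le_sum fun i _ => le_lam h i

lemma eq_lam {μ : Fin (k + 1) → ℕ} (h : Vd n k μ) (hs : sz μ = sz (lam n k)) : μ = lam n k := by
  funext i
  exact (Finset.sum_eq_sum_iff_of_le (fun i _ => le_lam h i)).1 hs i (Finset.mem_univ i)

lemma sz_lt {μ : Fin (k + 1) → ℕ} (h : Vd n k μ) (hs : μ ≠ lam n k) : sz μ < sz (lam n k) :=
  lt_of_le_of_ne (sz_le h) fun e => hs (eq_lam h e)

lemma sz_eq_zero {μ : Fin (k + 1) → ℕ} : sz μ = 0 ↔ μ = 0 := by
  unfold sz
  rw [Finset.sum_eq_zero_iff]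
  constructor
  · intro h
    funext i
    exact h i (Finset.mem_univ i)
  · intro h i _
    rw [h]
    rfl

lemma vd_lam (hk : 2 * k < n) : Vd n k (lam n k) := by
  refine ⟨fun i => le_rfl, fun i j hij => Or.inr ?_⟩
  unfold lam
  have h1 : (i : ℕ) < (j : ℕ) := hij
  have h2 := j.isLt
  omega

lemma vd_zero : Vd n k 0 := by
  refine ⟨fun i => Nat.zero_le _, fun i j hij => Or.inl rfl⟩

/-- chains from above -/
noncomputable def hh (n k : ℕ) : ℕ → (Fin (k + 1) → ℕ) → ℚ
  | 0, μ => if μ = lam n k then 1 else 0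
  | r + 1, μ => ∑ i : Fin (k + 1), if Vd n k (up μ i) then hh n k r (up μ i) else 0

/-- chains from below -/
noncomputable def ff (n k : ℕ) : ℕ → (Fin (k + 1) → ℕ) → ℚ
  | 0, ν => if ν = 0 then 1 else 0
  | j + 1, ν => ∑ i : Fin (k + 1), if 0 < ν i ∧ Vd n k (dn ν i) then ff n k j (dn ν i) else 0

/-- sums along chains -/
noncomputable def TT (n k : ℕ) (g : (Fin (k + 1) → ℕ) → ℚ) : ℕ → (Fin (k + 1) → ℕ) → ℚ
  | 0, μ => if μ = lam n k then g μ else 0
  | r + 1, μ => g μ * hh n k (r + 1) μ +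
      ∑ i : Fin (k + 1), if Vd n k (up μ i) then TT n k g r (up μ i) else 0

/-- `f` -/
noncomputable def fF (n k : ℕ) (ν : Fin (k + 1) → ℕ) : ℚ := ff n k (sz ν) ν

/-- `h` -/
noncomputable def hF (n k : ℕ) (μ : Fin (k + 1) → ℕ) : ℚ := hh n k (sz (lam n k) - sz μ) μ

lemma isF : IsF n k (fF n k) := by
  constructor
  · have h0 : sz (0 : Fin (k + 1) → ℕ) = 0 := sz_eq_zero.2 rfl
    unfold fF
    rw [h0]
    simp [ff]
  · intro ν _ h0
    have h1 : sz ν ≠ 0 := fun h => h0 (sz_eq_zero.1 h)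
    obtain ⟨m, hm⟩ := Nat.exists_eq_succ_of_ne_zero h1
    unfold fF
    rw [hm]
    show ff n k (m + 1) ν = _
    simp only [ff]
    apply Finset.sum_congr rfl
    intro i _
    split_ifs with h
    · have := sz_dn ν i h.1
      have h2 : sz (dn ν i) = m := by omega
      rw [h2]
    · rfl

lemma hF_step {μ : Fin (k + 1) → ℕ} (h : Vd n k μ) (hs : μ ≠ lam n k) :
    hF n k μ = ∑ i : Fin (k + 1), if Vd n k (up μ i) then hF n k (up μ i) else 0 := by
  have h1 := sz_lt h hs
  obtain ⟨r, hr⟩ : ∃ r, sz (lam n k) - sz μ = r + 1 := ⟨sz (lam n k) - sz μ - 1, by omega⟩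
  unfold hF
  rw [hr]
  simp only [hh]
  apply Finset.sum_congr rfl
  intro i _
  split_ifs with h
  · have := sz_up μ i
    have h2 : sz (lam n k) - sz (up μ i) = r := by omega
    rw [h2]
  · rfl

lemma hF_lam : hF n k (lam n k) = 1 := by
  unfold hF
  rw [Nat.sub_self]
  simp [hh]

lemma isH : IsH n k (hF n k) := ⟨hF_lam, fun _ h hs => hF_step h hs⟩

/-- moving one level up -/
lemma shift (X : (Fin (k + 1) → ℕ) → ℚ) (j : ℕ) :
    (∑ ν ∈ (LL n k).filter (fun ν => sz ν = j),
      fF n k ν * ∑ i : Fin (k + 1), if Vd n k (up ν i) then X (up ν i) else 0) =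
    ∑ κ ∈ (LL n k).filter (fun ν => sz ν = j + 1), fF n k κ * X κ := by
  have hR : ∀ κ ∈ (LL n k).filter (fun ν => sz ν = j + 1), fF n k κ * X κ =
      ∑ i : Fin (k + 1), if 0 < κ i ∧ Vd n k (dn κ i) then fF n k (dn κ i) * X κ else 0 := by
    intro κ hκ
    rw [Finset.mem_filter, mem_LL] at hκ
    have h0 : κ ≠ 0 := by
      intro h
      rw [sz_eq_zero.2 h] at hκ
      omega
    rw [isF.2 κ hκ.1 h0, Finset.sum_mul]
    apply Finset.sum_congr rfl
    intro i _
    split_ifs <;> ring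
  rw [Finset.sum_congr rfl hR]
  have hL : ∀ ν ∈ (LL n k).filter (fun ν => sz ν = j),
      (fF n k ν * ∑ i : Fin (k + 1), if Vd n k (up ν i) then X (up ν i) else 0) =
      ∑ i : Fin (k + 1), if Vd n k (up ν i) then fF n k ν * X (up ν i) else 0 := by
    intro ν _
    rw [Finset.mul_sum]
    apply Finset.sum_congr rfl
    intro i _
    split_ifs <;> ring
  rw [Finset.sum_congr rfl hL, ← Finset.sum_product', ← Finset.sum_product', ← Finset.sum_filter,
    ← Finset.sum_filter]
  refine Finset.sum_bij' (fun p _ => (up p.1 p.2, p.2)) (fun p _ => (dn p.1 p.2, p.2))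
    ?_ ?_ ?_ ?_ ?_
  · rintro ⟨ν, i⟩ h
    simp only [Finset.mem_filter, Finset.mem_product, mem_LL, Finset.mem_univ, and_true] at h ⊢
    refine ⟨⟨h.2, ?_⟩, ?_, ?_⟩
    · rw [sz_up]
      omega
    · rw [up_apply_self]
      omega
    · rw [dn_up]
      exact h.1.1
  · rintro ⟨κ, i⟩ h
    simp only [Finset.mem_filter, Finset.mem_product, mem_LL, Finset.mem_univ, and_true] at h ⊢
    refine ⟨⟨h.2.2, ?_⟩, ?_⟩
    · have := sz_dn κ i h.2.1
      omega
    · rw [up_dn _ _ h.2.1]
      exact h.1.1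
  · rintro ⟨ν, i⟩ _
    simp only [dn_up]
  · rintro ⟨κ, i⟩ h
    simp only [Finset.mem_filter, Finset.mem_product, mem_LL, Finset.mem_univ, and_true] at h
    simp only [up_dn _ _ h.2.1]
  · rintro ⟨ν, i⟩ _
    simp only [dn_up]

lemma zero_level : (LL n k).filter (fun ν => sz ν = 0) = {0} := by
  ext ν
  rw [Finset.mem_filter, mem_LL, Finset.mem_singleton, sz_eq_zero]
  constructor
  · exact fun h => h.2
  · rintro rfl
    exact ⟨vd_zero, rfl⟩

lemma top_level (hk : 2 * k < n) :
    (LL n k).filter (fun ν => sz ν = sz (lam n k)) = {lam n k} := by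
  ext ν
  rw [Finset.mem_filter, mem_LL, Finset.mem_singleton]
  constructor
  · exact fun h => eq_lam h.1 h.2
  · rintro rfl
    exact ⟨vd_lam hk, rfl⟩

lemma hh_level (j : ℕ) (hj : j ≤ sz (lam n k)) :
    hh n k (sz (lam n k)) 0 =
      ∑ ν ∈ (LL n k).filter (fun ν => sz ν = j), fF n k ν * hh n k (sz (lam n k) - j) ν := by
  induction j with
  | zero =>
    rw [zero_level, Finset.sum_singleton, isF.1, one_mul, Nat.sub_zero]
  | succ j ih =>
    rw [ih (by omega), ← shift]
    apply Finset.sum_congr rfl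
    intro ν _
    have e : sz (lam n k) - j = (sz (lam n k) - (j + 1)) + 1 := by omega
    rw [e]
    simp only [hh]

lemma hh_total (hk : 2 * k < n) : hh n k (sz (lam n k)) 0 = fF n k (lam n k) := by
  rw [hh_level (sz (lam n k)) le_rfl, top_level hk, Finset.sum_singleton, Nat.sub_self]
  simp [hh]

lemma TT_level (g : (Fin (k + 1) → ℕ) → ℚ) (j : ℕ) (hj : j ≤ sz (lam n k)) :
    TT n k g (sz (lam n k)) 0 =
      (∑ ν ∈ (LL n k).filter (fun ν => sz ν < j), fF n k ν * hF n k ν * g ν) +
      ∑ ν ∈ (LL n k).filter (fun ν => sz ν = j), fF n k ν * TT n k g (sz (lam n k) - j) ν := by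
  induction j with
  | zero =>
    rw [zero_level, Finset.sum_singleton, isF.1, one_mul, Nat.sub_zero]
    have : (LL n k).filter (fun ν => sz ν < 0) = ∅ := by
      apply Finset.filter_false_of_mem
      intro ν _
      omega
    rw [this, Finset.sum_empty, zero_add]
  | succ j ih =>
    rw [ih (by omega), ← shift]
    have e1 : ∀ ν ∈ (LL n k).filter (fun ν => sz ν = j),
        fF n k ν * TT n k g (sz (lam n k) - j) ν =
        fF n k ν * hF n k ν * g ν + fF n k ν * ∑ i : Fin (k + 1),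
          if Vd n k (up ν i) then TT n k g (sz (lam n k) - (j + 1)) (up ν i) else 0 := by
      intro ν hν
      rw [Finset.mem_filter] at hν
      have e : sz (lam n k) - j = (sz (lam n k) - (j + 1)) + 1 := by omega
      have e2 : hF n k ν = hh n k ((sz (lam n k) - (j + 1)) + 1) ν := by
        unfold hF
        rw [hν.2, e]
      rw [e, e2]
      simp only [TT]
      ring
    rw [Finset.sum_congr rfl e1, Finset.sum_add_distrib, ← add_assoc]
    congr 1
    rw [← Finset.sum_union]
    · apply Finset.sum_congr _ fun _ _ => rfl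
      ext ν
      simp only [Finset.mem_union, Finset.mem_filter]
      constructor
      · rintro (h | h)
        · exact ⟨h.1, by omega⟩
        · exact ⟨h.1, by omega⟩
      · intro h
        by_cases h2 : sz ν < j
        · exact Or.inl ⟨h.1, h2⟩
        · exact Or.inr ⟨h.1, by omega⟩
    · rw [Finset.disjoint_left]
      intro ν h1 h2
      simp only [Finset.mem_filter] at h1 h2
      omega

lemma TT_total (hk : 2 * k < n) (g : (Fin (k + 1) → ℕ) → ℚ) :
    TT n k g (sz (lam n k)) 0 = ∑ ν ∈ LL n k, fF n k ν * hF n k ν * g ν := by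
  rw [TT_level g (sz (lam n k)) le_rfl]
  have e1 : ∑ ν ∈ (LL n k).filter (fun ν => sz ν = sz (lam n k)),
        fF n k ν * TT n k g (sz (lam n k) - sz (lam n k)) ν =
      ∑ ν ∈ (LL n k).filter (fun ν => sz ν = sz (lam n k)), fF n k ν * hF n k ν * g ν := by
    rw [top_level hk, Finset.sum_singleton, Finset.sum_singleton, hF_lam, Nat.sub_self]
    simp [TT]
  rw [e1, ← Finset.sum_union]
  · apply Finset.sum_congr _ fun _ _ => rfl
    ext ν
    simp only [Finset.mem_union, Finset.mem_filter]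
    constructor
    · rintro (h | h)
      · exact h.1
      · exact h.1
    · intro h
      have := sz_le (mem_LL.1 h)
      by_cases h2 : sz ν < sz (lam n k)
      · exact Or.inl ⟨h, h2⟩
      · exact Or.inr ⟨h, by omega⟩
  · rw [Finset.disjoint_left]
    intro ν h1 h2
    simp only [Finset.mem_filter] at h1 h2
    omega

/-! ### words -/

lemma Sh_zero {N : ℕ} (w : Fin N → Fin (k + 1)) : Sh w 0 = 0 := by
  funext i
  simp [Sh]

lemma Sh_cons {r : ℕ} (i : Fin (k + 1)) (w : Fin r → Fin (k + 1)) (μ : Fin (k + 1) → ℕ) (j : ℕ) :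
    μ + Sh (Fin.cons i w : Fin (r + 1) → Fin (k + 1)) (j + 1) = up μ i + Sh w j := by
  funext l
  have e : Sh (Fin.cons i w : Fin (r + 1) → Fin (k + 1)) (j + 1) l =
      (if i = l then 1 else 0) + Sh w j l := by
    unfold Sh
    rw [Finset.card_filter, Finset.card_filter, Fin.sum_univ_succ]
    congr 1
    · simp
    · apply Finset.sum_congr rfl
      intro t _
      simp
  rw [Pi.add_apply, Pi.add_apply, e]
  unfold up
  by_cases h : i = l
  · subst h
    simp
    omega
  · rw [Function.update_of_ne (Ne.symm h), if_neg h]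
    omega

/-- words starting at `μ` -/
noncomputable def Wr (n k r : ℕ) (μ : Fin (k + 1) → ℕ) : Finset (Fin r → Fin (k + 1)) :=
  Finset.univ.filter (fun w : Fin r → Fin (k + 1) =>
    (∀ j : ℕ, j ≤ r → Vd n k (μ + Sh w j)) ∧ μ + Sh w r = lam n k)

lemma cons_mem {r : ℕ} {μ : Fin (k + 1) → ℕ} (hμ : Vd n k μ) (i : Fin (k + 1))
    (w : Fin r → Fin (k + 1)) :
    ((∀ j : ℕ, j ≤ r + 1 → Vd n k (μ + Sh (Fin.cons i w : Fin (r + 1) → Fin (k + 1)) j)) ∧
      μ + Sh (Fin.cons i w : Fin (r + 1) → Fin (k + 1)) (r + 1) = lam n k) ↔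
    (Vd n k (up μ i) ∧ (∀ j : ℕ, j ≤ r → Vd n k (up μ i + Sh w j)) ∧
      up μ i + Sh w r = lam n k) := by
  rw [Sh_cons]
  constructor
  · rintro ⟨h1, h2⟩
    refine ⟨?_, ?_, h2⟩
    · have := h1 1 (by omega)
      rw [Sh_cons, Sh_zero, add_zero] at this
      exact this
    · intro j hj
      have := h1 (j + 1) (by omega)
      rw [Sh_cons] at this
      exact this
  · rintro ⟨_, h1, h2⟩
    refine ⟨?_, h2⟩
    intro j hj
    rcases j with _ | j
    · rw [Sh_zero, add_zero]
      exact hμ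
    · rw [Sh_cons]
      exact h1 j (by omega)

lemma sum_Wr_succ {r : ℕ} {μ : Fin (k + 1) → ℕ} (hμ : Vd n k μ)
    (Φ : (Fin (r + 1) → Fin (k + 1)) → ℚ) :
    ∑ w ∈ Wr n k (r + 1) μ, Φ w =
      ∑ i : Fin (k + 1), if Vd n k (up μ i) then
        ∑ w ∈ Wr n k r (up μ i), Φ (Fin.cons i w) else 0 := by
  unfold Wr
  rw [Finset.sum_filter, ← (Fin.consEquiv (fun _ : Fin (r + 1) => Fin (k + 1))).sum_comp,
    Fintype.sum_prod_type]
  apply Finset.sum_congr rfl
  intro i _
  by_cases h : Vd n k (up μ i)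
  · rw [if_pos h, Finset.sum_filter]
    apply Finset.sum_congr rfl
    intro w _
    have := cons_mem hμ i w
    simp only [h, true_and] at this
    show (if ((∀ j : ℕ, j ≤ r + 1 → Vd n k (μ + Sh (Fin.cons i w : Fin (r + 1) → Fin (k + 1)) j)) ∧
      μ + Sh (Fin.cons i w : Fin (r + 1) → Fin (k + 1)) (r + 1) = lam n k) then
        Φ (Fin.cons i w) else 0) = _
    by_cases h2 : ((∀ j : ℕ, j ≤ r → Vd n k (up μ i + Sh w j)) ∧ up μ i + Sh w r = lam n k)
    · rw [if_pos h2, if_pos (this.2 h2)]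
    · rw [if_neg h2, if_neg (fun h3 => h2 (this.1 h3))]
  · rw [if_neg h]
    apply Finset.sum_eq_zero
    intro w _
    have := cons_mem hμ i w
    simp only [h, false_and, iff_false] at this
    exact if_neg this

lemma card_Wr (r : ℕ) : ∀ μ : Fin (k + 1) → ℕ, Vd n k μ →
    ((Wr n k r μ).card : ℚ) = hh n k r μ := by
  induction r with
  | zero =>
    intro μ hμ
    unfold Wr
    simp only [hh]
    by_cases h : μ = lam n k
    · rw [if_pos h, Finset.filter_true_of_mem]
      · simp
      · intro w _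
        refine ⟨fun j hj => ?_, ?_⟩
        · have : j = 0 := by omega
          rw [this, Sh_zero, add_zero]
          exact hμ
        · rw [Sh_zero, add_zero]
          exact h
    · rw [if_neg h, Finset.filter_false_of_mem]
      · simp
      · intro w _ h2
        rw [Sh_zero, add_zero] at h2
        exact h h2.2
  | succ r ih =>
    intro μ hμ
    rw [Finset.cast_card, sum_Wr_succ hμ]
    simp only [hh]
    apply Finset.sum_congr rfl
    intro i _
    split_ifs with h
    · rw [← ih _ h, Finset.cast_card]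
    · rfl

lemma sum_Wr (g : (Fin (k + 1) → ℕ) → ℚ) (r : ℕ) : ∀ μ : Fin (k + 1) → ℕ, Vd n k μ →
    ∑ w ∈ Wr n k r μ, ∑ j ∈ Finset.range (r + 1), g (μ + Sh w j) = TT n k g r μ := by
  induction r with
  | zero =>
    intro μ hμ
    have hc := card_Wr (n := n) (k := k) 0 μ hμ
    have e : ∀ w ∈ Wr n k 0 μ, ∑ j ∈ Finset.range (0 + 1), g (μ + Sh w j) = g μ := by
      intro w _
      rw [zero_add, Finset.sum_range_one, Sh_zero, add_zero]
    rw [Finset.sum_congr rfl e, Finset.sum_const, nsmul_eq_mul, hc]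
    simp only [hh, TT]
    split_ifs <;> simp
  | succ r ih =>
    intro μ hμ
    have e : ∀ w ∈ Wr n k (r + 1) μ, ∑ j ∈ Finset.range (r + 1 + 1), g (μ + Sh w j) =
        g μ + ∑ j ∈ Finset.range (r + 1), g (μ + Sh w (j + 1)) := by
      intro w _
      rw [Finset.sum_range_succ', Sh_zero, add_zero, add_comm]
    rw [Finset.sum_congr rfl e, Finset.sum_add_distrib, Finset.sum_const, nsmul_eq_mul,
      card_Wr _ _ hμ, sum_Wr_succ hμ]
    simp only [TT]
    rw [mul_comm (hh n k (r + 1) μ) (g μ)]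
    congr 1
    apply Finset.sum_congr rfl
    intro i _
    split_ifs with h
    · rw [← ih _ h]
      apply Finset.sum_congr rfl
      intro w _
      apply Finset.sum_congr rfl
      intro j _
      rw [Sh_cons]
    · rfl

theorem words : S_WORDS := by
  intro n k N hk hN
  have hN' : N = sz (lam n k) := hN
  refine ⟨fF n k, hF n k, isF, isH, ?_, ?_⟩
  · intro g
    rw [← TT_total hk g, ← sum_Wr g _ _ vd_zero]
    subst hN'
    apply Finset.sum_congr
    · unfold Wd Wr
      apply Finset.filter_congr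
      intro w _
      simp only [zero_add]
      rw [funext_iff]
      rfl
    · intro w _
      simp only [zero_add]
  · rw [← hh_total hk, ← card_Wr _ _ vd_zero]
    subst hN'
    congr 2
    unfold Wd Wr
    apply Finset.filter_congr
    intro w _
    simp only [zero_add]
    rw [funext_iff]
    rfl

end Pool.Agent.W948.TZ
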